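import Pool.Agent.U795.GV.Rate

/-!
U795/GV (helper795): an explicit constant for all `η`.
-/

set_option autoImplicit false

namespace Pool.Agent.U795.GV

open Finset Filter
open Pool.Agent.U137.GV (EE EE_cont EE_le choose_low ev_ge num numAll)

/-- concavity of the logarithm -/
lemma log_conc {δ θ : ℝ} (h0 : 0 < δ) (h1 : δ < 1) (_hθ : 0 < θ) (hθδ : θ < δ) :
    δ * Real.log ((δ - θ) / δ) ≤ Real.log (1 - θ) := by
  have hθ1 : 0 < 1 - θ := by linarith
  have hu : 0 < (δ - θ) / δ := div_pos (by linarith) h0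
  have h2 := Real.log_le_sub_one_of_pos (x := (δ - θ) / δ / (1 - θ)) (by positivity)
  have h3 := Real.log_le_sub_one_of_pos (x := 1 / (1 - θ)) (by positivity)
  rw [Real.log_div hu.ne' hθ1.ne'] at h2
  rw [Real.log_div one_ne_zero hθ1.ne', Real.log_one] at h3
  have h4 : δ * ((δ - θ) / δ / (1 - θ) - 1) + (1 - δ) * (1 / (1 - θ) - 1) = 0 := by
    field_simp
    ring
  have h5 := mul_le_mul_of_nonneg_left h2 h0.le
  have h6 := mul_le_mul_of_nonneg_left h3 (by linarith : 0 ≤ 1 - δ)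
  nlinarith

/-- the covering rate of the codes with `θ n` zero coordinates -/
lemma f_le {q δ θ : ℝ} (hq : 2 ≤ q) (h0 : 0 < δ) (h1 : δ < 1) (hθ : 0 < θ) (hθδ : θ < δ) :
    (1 - θ) * (Real.log q - EE q ((δ - θ) / (1 - θ))) ≤
      Real.log q - EE q δ + θ * Real.log (1 / (δ - θ)) := by
  have hθ1 : 0 < 1 - θ := by linarith
  have hx : 0 < δ - θ := by linarith
  have hy : 0 < 1 - δ := by linarith
  have hML : Real.log (q - 1) ≤ Real.log q := Real.log_le_log (by linarith) (by linarith)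
  have hc := log_conc h0 h1 hθ hθδ
  rw [Real.log_div hx.ne' h0.ne'] at hc
  have e1 : 1 - (δ - θ) / (1 - θ) = (1 - δ) / (1 - θ) := by
    field_simp
    ring
  have e2 : (1 - θ) * EE q ((δ - θ) / (1 - θ)) = (δ - θ) * Real.log (q - 1) -
      (δ - θ) * (Real.log (δ - θ) - Real.log (1 - θ)) -
      (1 - δ) * (Real.log (1 - δ) - Real.log (1 - θ)) := by
    unfold EE Real.binEntropy
    rw [e1, Real.log_inv, Real.log_inv, Real.log_div hx.ne' hθ1.ne',
      Real.log_div hy.ne' hθ1.ne']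
    field_simp
    ring
  have e3 : EE q δ = δ * Real.log (q - 1) - δ * Real.log δ - (1 - δ) * Real.log (1 - δ) := by
    unfold EE Real.binEntropy
    rw [Real.log_inv, Real.log_inv]
    ring
  have e4 : Real.log (1 / (δ - θ)) = - Real.log (δ - θ) := by
    rw [Real.log_div one_ne_zero hx.ne', Real.log_one, zero_sub]
  rw [mul_sub, e2, e3, e4]
  have e5 : θ * Real.log (q - 1) ≤ θ * Real.log q := mul_le_mul_of_nonneg_left hML hθ.le
  have e6 : θ * Real.log (1 - θ) ≤ 0 :=
    mul_nonpos_of_nonneg_of_nonpos hθ.le (Real.log_nonpos hθ1.le (by linarith))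
  linarith

lemma EE_lt {q δ : ℝ} (hq : 2 ≤ q) (h0 : 0 < δ) (h1 : δ < 1) :
    EE q δ < δ * Real.log (3 * q / δ) := by
  have hy : 0 < 1 - δ := by linarith
  have hq0 : 0 < q := by linarith
  have hML : Real.log (q - 1) ≤ Real.log q := Real.log_le_log (by linarith) (by linarith)
  have h3 : 1 < Real.log 3 := by
    rw [Real.lt_log_iff_exp_lt (by norm_num)]
    exact Real.exp_one_lt_d9.trans (by norm_num)
  have e3 : EE q δ = δ * Real.log (q - 1) - δ * Real.log δ - (1 - δ) * Real.log (1 - δ) := by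
    unfold EE Real.binEntropy
    rw [Real.log_inv, Real.log_inv]
    ring
  have e4 : Real.log (3 * q / δ) = Real.log 3 + Real.log q - Real.log δ := by
    rw [Real.log_div (by positivity) h0.ne', Real.log_mul (by norm_num) hq0.ne']
  have h4 := Real.log_le_sub_one_of_pos (x := 1 / (1 - δ)) (by positivity)
  rw [Real.log_div one_ne_zero hy.ne', Real.log_one, zero_sub] at h4
  have h5 := mul_le_mul_of_nonneg_left h4 hy.le
  have h6 : (1 - δ) * (1 / (1 - δ) - 1) = δ := by
    field_simp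
    ring
  have h7 : δ * Real.log (q - 1) ≤ δ * Real.log q := mul_le_mul_of_nonneg_left hML h0.le
  have h8 : δ * 1 < δ * Real.log 3 := mul_lt_mul_of_pos_left h3 h0
  rw [e3, e4]
  nlinarith

/-- **The explicit constant.** -/
theorem explicit {F : Type} [Field F] [Fintype F] [DecidableEq F] {δ η : ℝ} (h0 : 0 < δ)
    (h1 : δ < 1) (hη : 0 < η) :
    ∀ᶠ n : ℕ in atTop, ∀ K : ℕ, K ≤ n →
      (1 - EE (Fintype.card F) δ / Real.log (Fintype.card F) + η) * n ≤ K →
      (num F n K (fun C => ∃ x : Fin n → F, ∀ w ∈ C, w + x ≠ 0 →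
        δ * n ≤ (hammingNorm (w + x) : ℝ)) : ℝ) ≤
        (Fintype.card F : ℝ) ^ (-(η ^ 2 / (4 * Real.logb (Fintype.card F)
          (3 * Fintype.card F / δ)) * (n : ℝ) ^ 2)) * numAll F n K := by
  have hq := Pool.Agent.U137.GV.two_le_card (F := F)
  obtain ⟨q, hqq⟩ : ∃ q : ℝ, q = (Fintype.card F : ℝ) := ⟨_, rfl⟩
  have hq2 : (2 : ℝ) ≤ q := by rw [hqq]; exact_mod_cast hq
  have hq0 : (0 : ℝ) < q := by linarith
  obtain ⟨L, hL⟩ : ∃ L : ℝ, L = Real.log q := ⟨_, rfl⟩
  have hL0 : 0 < L := by rw [hL]; exact Real.log_pos (by linarith)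
  obtain ⟨R, hR⟩ : ∃ R : ℝ, R = 1 - EE q δ / L + η := ⟨_, rfl⟩
  have hRL : R * L = L - EE q δ + η * L := by
    rw [hR]
    field_simp
  rw [← hqq, ← hL, ← hR]
  by_cases hR1 : 1 < R
  · filter_upwards [eventually_ge_atTop 1] with n hn K hK hKR
    exfalso
    have h2 : (1 : ℝ) ≤ n := by exact_mod_cast hn
    have h3 : (K : ℝ) ≤ n := by exact_mod_cast hK
    nlinarith
  · push Not at hR1
    have hE := EE_lt hq2 h0 h1
    obtain ⟨Λ, hΛ⟩ : ∃ Λ : ℝ, Λ = Real.log (3 * q / δ) := ⟨_, rfl⟩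
    rw [← hΛ] at hE
    have hΛ0 : 0 < Λ := by
      rw [hΛ]
      apply Real.log_pos
      rw [one_lt_div h0]
      linarith
    have hηL : η * L ≤ EE q δ := by
      have : R * L ≤ 1 * L := mul_le_mul_of_nonneg_right hR1 hL0.le
      linarith
    obtain ⟨θ, hθ⟩ : ∃ θ : ℝ, θ = η * L / (2 * Λ) := ⟨_, rfl⟩
    have hθ0 : 0 < θ := by rw [hθ]; positivity
    have hθΛ : 2 * (θ * Λ) = η * L := by
      rw [hθ]
      field_simp
    have hθδ : θ < δ / 2 := by
      have h2 : θ * Λ < δ / 2 * Λ := by linarith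
      exact lt_of_mul_lt_mul_right h2 hΛ0.le
    have hf := f_le hq2 h0 h1 hθ0 (by linarith : θ < δ)
    rw [← hL] at hf
    have hlog : Real.log (1 / (δ - θ)) < Λ := by
      rw [hΛ]
      apply Real.log_lt_log (one_div_pos.2 (by linarith))
      rw [div_lt_div_iff₀ (by linarith) h0]
      nlinarith
    have hcc : Real.logb q (3 * q / δ) = Λ / L := by
      rw [hΛ, hL]
      rfl
    rw [hcc]
    have hrate := rate (F := F) (δ := δ) (θ := θ) (R := R) (c := η ^ 2 / (4 * (Λ / L)))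
      hθ0 (by linarith) h1 (by positivity) (by
        rw [← hqq, ← hL]
        have e1 : η ^ 2 / (4 * (Λ / L)) * L = θ * (θ * Λ) := by
          have : η * L = 2 * (θ * Λ) := hθΛ.symm
          have e2 : η ^ 2 / (4 * (Λ / L)) * L = (η * L) ^ 2 / (4 * Λ) := by
            field_simp
          rw [e2, this]
          field_simp
          ring
        rw [e1]
        apply mul_lt_mul_of_pos_left _ hθ0
        rw [hRL]
        have e3 : θ * Real.log (1 / (δ - θ)) < θ * Λ := mul_lt_mul_of_pos_left hlog hθ0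
        linarith)
    rw [← hqq] at hrate
    exact hrate.mono (fun n hn K hK hKR => hn K hK hKR)

end Pool.Agent.U795.GV
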