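import Mathlib

/-!
U795/GV (helper795): random linear equations over a finite field. The pair `c = (g, x)` is the
equation `m ⬝ᵥ g = x` for a message `m`. The number of the messages of a set `A` which satisfy a
random equation is concentrated around `|A| / q` (pairwise independence).
-/

set_option autoImplicit false
set_option linter.unusedSectionVars false

namespace Pool.Agent.U795.GV

open Finset

variable {F : Type} [Field F] [Fintype F] [DecidableEq F] {k : ℕ}

/-- the message `m` satisfies the equation `c` -/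
abbrev Hit (m : Fin k → F) (c : (Fin k → F) × F) : Prop := m ⬝ᵥ c.1 = c.2

/-- the number of the messages in `A` which satisfy the equation `c` -/
def N (A : Finset (Fin k → F)) (c : (Fin k → F) × F) : ℕ := (A.filter (fun m => Hit m c)).card

lemma N_eq (A : Finset (Fin k → F)) (c : (Fin k → F) × F) :
    (N A c : ℝ) = ∑ m ∈ A, if Hit m c then (1 : ℝ) else 0 := by
  unfold N
  rw [Finset.sum_boole]

lemma card_one (m : Fin k → F) :
    ∑ c : (Fin k → F) × F, (if Hit m c then (1 : ℝ) else 0) = (Fintype.card F : ℝ) ^ k := by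
  rw [Fintype.sum_prod_type]
  have h1 : ∀ g : Fin k → F, ∑ x : F, (if Hit m (g, x) then (1 : ℝ) else 0) = 1 := by
    intro g
    simp [Hit]
  rw [Finset.sum_congr rfl (fun g _ => h1 g)]
  simp

/-- the kernel of a nonzero functional -/
lemma card_ker (v : Fin k → F) (hv : v ≠ 0) :
    ((univ.filter (fun g : Fin k → F => v ⬝ᵥ g = 0)).card : ℝ) * Fintype.card F =
      (Fintype.card F : ℝ) ^ k := by
  classical
  obtain ⟨i, hi⟩ : ∃ i, v i ≠ 0 := by
    by_contra h
    push Not at h
    exact hv (funext h)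
  have hu : v ⬝ᵥ (Pi.single i (v i)⁻¹) = 1 := by
    rw [dotProduct_single]
    exact mul_inv_cancel₀ hi
  have e : {g : Fin k → F // v ⬝ᵥ g = 0} × F ≃ (Fin k → F) :=
    { toFun := fun p => p.1.1 + p.2 • (Pi.single i (v i)⁻¹ : Fin k → F)
      invFun := fun g => (⟨g - (v ⬝ᵥ g) • (Pi.single i (v i)⁻¹ : Fin k → F), by
        rw [dotProduct_sub, dotProduct_smul, hu]; simp⟩, v ⬝ᵥ g)
      left_inv := by
        rintro ⟨⟨g, hg⟩, t⟩
        have h1 : v ⬝ᵥ (g + t • (Pi.single i (v i)⁻¹ : Fin k → F)) = t := by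
          rw [dotProduct_add, dotProduct_smul, hu, hg]; simp
        refine Prod.ext (Subtype.ext ?_) ?_
        · simp only [h1]
          abel
        · simp only [h1]
      right_inv := by
        intro g
        simp }
  have h1 := Fintype.card_congr e
  rw [Fintype.card_prod, Fintype.card_subtype, Fintype.card_fun, Fintype.card_fin] at h1
  exact_mod_cast h1

lemma card_two (m m' : Fin k → F) (h : m ≠ m') :
    (∑ c : (Fin k → F) × F, (if Hit m c then (1 : ℝ) else 0) * (if Hit m' c then (1 : ℝ) else 0)) *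
      Fintype.card F = (Fintype.card F : ℝ) ^ k := by
  rw [← card_ker (m - m') (sub_ne_zero.2 h)]
  congr 1
  rw [Fintype.sum_prod_type, ← Finset.sum_boole]
  refine Finset.sum_congr rfl (fun g _ => ?_)
  have h1 : ∀ x : F, (if Hit m (g, x) then (1 : ℝ) else 0) * (if Hit m' (g, x) then (1 : ℝ) else 0) =
      if m ⬝ᵥ g = x then (if m' ⬝ᵥ g = x then (1 : ℝ) else 0) else 0 := by
    intro x
    by_cases h1 : m ⬝ᵥ g = x <;> simp [Hit, h1]
  rw [Finset.sum_congr rfl (fun x _ => h1 x), Finset.sum_ite_eq]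
  simp only [Finset.mem_univ, if_true, sub_dotProduct, sub_eq_zero]
  by_cases h2 : m' ⬝ᵥ g = m ⬝ᵥ g
  · rw [if_pos h2, if_pos h2.symm]
  · rw [if_neg h2, if_neg (fun h3 => h2 h3.symm)]

lemma sumN (A : Finset (Fin k → F)) :
    ∑ c : (Fin k → F) × F, (N A c : ℝ) = A.card * (Fintype.card F : ℝ) ^ k := by
  rw [Finset.sum_congr rfl (fun c _ => N_eq A c), Finset.sum_comm,
    Finset.sum_congr rfl (fun m _ => card_one m), Finset.sum_const, nsmul_eq_mul]

lemma sumN2 (A : Finset (Fin k → F)) :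
    (∑ c : (Fin k → F) × F, (N A c : ℝ) ^ 2) * Fintype.card F =
      (A.card * Fintype.card F + A.card * (A.card - 1)) * (Fintype.card F : ℝ) ^ k := by
  classical
  have h1 : ∀ c : (Fin k → F) × F, (N A c : ℝ) ^ 2 = ∑ m ∈ A, ∑ m' ∈ A,
      (if Hit m c then (1 : ℝ) else 0) * (if Hit m' c then (1 : ℝ) else 0) := by
    intro c
    rw [N_eq, sq, Finset.sum_mul_sum]
  rw [Finset.sum_congr rfl (fun c _ => h1 c), Finset.sum_comm]
  have h2 : ∀ m ∈ A, (∑ c : (Fin k → F) × F, ∑ m' ∈ A,
      (if Hit m c then (1 : ℝ) else 0) * (if Hit m' c then (1 : ℝ) else 0)) * Fintype.card F =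
      (Fintype.card F + (A.card - 1)) * (Fintype.card F : ℝ) ^ k := by
    intro m hm
    rw [Finset.sum_comm, ← Finset.add_sum_erase A _ hm, add_mul, Finset.sum_mul (A.erase m),
      Finset.sum_congr rfl (fun m' hm' => card_two m m' (Finset.ne_of_mem_erase hm').symm),
      Finset.sum_const, nsmul_eq_mul, Finset.card_erase_of_mem hm]
    have h3 : ∑ c : (Fin k → F) × F, (if Hit m c then (1 : ℝ) else 0) *
        (if Hit m c then (1 : ℝ) else 0) = (Fintype.card F : ℝ) ^ k := by
      rw [← card_one m]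
      refine Finset.sum_congr rfl (fun c _ => ?_)
      by_cases h : Hit m c <;> simp [h]
    rw [h3, Nat.cast_sub (Finset.card_pos.2 ⟨m, hm⟩)]
    push_cast
    ring
  rw [Finset.sum_mul, Finset.sum_congr rfl h2, Finset.sum_const, nsmul_eq_mul]
  ring

lemma var_le (A : Finset (Fin k → F)) :
    ∑ c : (Fin k → F) × F, ((N A c : ℝ) - A.card / Fintype.card F) ^ 2 ≤
      A.card * (Fintype.card F : ℝ) ^ k := by
  have hq : (0 : ℝ) < Fintype.card F := by exact_mod_cast Fintype.card_pos
  obtain ⟨q, hq'⟩ : ∃ q : ℝ, q = (Fintype.card F : ℝ) := ⟨_, rfl⟩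
  have h1 := sumN A
  have h2 := sumN2 A
  have h3 : ∑ c : (Fin k → F) × F, ((N A c : ℝ) - A.card / Fintype.card F) ^ 2 =
      ∑ c : (Fin k → F) × F, (N A c : ℝ) ^ 2 -
        2 * (A.card / Fintype.card F) * ∑ c : (Fin k → F) × F, (N A c : ℝ) +
        (Fintype.card F : ℝ) ^ k * Fintype.card F * (A.card / Fintype.card F) ^ 2 := by
    have h4 : ∀ c : (Fin k → F) × F, ((N A c : ℝ) - A.card / Fintype.card F) ^ 2 =
        (N A c : ℝ) ^ 2 - 2 * (A.card / Fintype.card F) * (N A c : ℝ) +
          (A.card / Fintype.card F) ^ 2 := by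
      intro c; ring
    rw [Finset.sum_congr rfl (fun c _ => h4 c), Finset.sum_add_distrib, Finset.sum_sub_distrib,
      ← Finset.mul_sum, Finset.sum_const, nsmul_eq_mul, Finset.card_univ, Fintype.card_prod,
      Fintype.card_fun, Fintype.card_fin]
    push_cast
    ring
  rw [h3, h1]
  rw [← hq'] at hq h2 ⊢
  have h5 : ∑ c : (Fin k → F) × F, (N A c : ℝ) ^ 2 =
      (A.card * q + A.card * (A.card - 1)) * q ^ k / q := by
    rw [eq_div_iff hq.ne', h2]
  rw [h5]
  have h6 : (A.card * q + A.card * (A.card - 1)) * q ^ k / q -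
      2 * (A.card / q) * (A.card * q ^ k) + q ^ k * q * (A.card / q) ^ 2 =
      A.card * q ^ k - A.card * q ^ k / q := by
    field_simp
    ring
  rw [h6]
  have : 0 ≤ (A.card : ℝ) * q ^ k / q := by positivity
  linarith

open Classical in
/-- Chebyshev -/
lemma cheb (A : Finset (Fin k → F)) (hA : A.Nonempty) {ε : ℝ} (hε : 0 < ε) :
    ((univ.filter (fun c : (Fin k → F) × F => ε * (A.card / Fintype.card F) <
      |(N A c : ℝ) - A.card / Fintype.card F|)).card : ℝ) ≤
      (Fintype.card F : ℝ) ^ k * (Fintype.card F : ℝ) ^ 2 / (ε ^ 2 * A.card) := by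
  have hq : (0 : ℝ) < Fintype.card F := by exact_mod_cast Fintype.card_pos
  have hA0 : (0 : ℝ) < A.card := by exact_mod_cast hA.card_pos
  have h1 := var_le A
  obtain ⟨S, hS⟩ : ∃ S : Finset ((Fin k → F) × F), S = univ.filter (fun c : (Fin k → F) × F =>
    ε * (A.card / Fintype.card F) < |(N A c : ℝ) - A.card / Fintype.card F|) := ⟨_, rfl⟩
  rw [← hS]
  have h2 : (S.card : ℝ) * (ε * (A.card / Fintype.card F)) ^ 2 ≤
      ∑ c : (Fin k → F) × F, ((N A c : ℝ) - A.card / Fintype.card F) ^ 2 := by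
    calc (S.card : ℝ) * (ε * (A.card / Fintype.card F)) ^ 2 =
          ∑ c ∈ S, (ε * ((A.card : ℝ) / Fintype.card F)) ^ 2 := by
          rw [Finset.sum_const, nsmul_eq_mul]
      _ ≤ ∑ c ∈ S, ((N A c : ℝ) - A.card / Fintype.card F) ^ 2 := by
          refine Finset.sum_le_sum (fun c hc => ?_)
          rw [hS, Finset.mem_filter] at hc
          rw [← sq_abs ((N A c : ℝ) - A.card / Fintype.card F)]
          exact pow_le_pow_left₀ (by positivity) hc.2.le 2
      _ ≤ _ := Finset.sum_le_sum_of_subset_of_nonneg (Finset.subset_univ _)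
          (fun c _ _ => sq_nonneg _)
  have h3 := h2.trans h1
  rw [le_div_iff₀ (by positivity)]
  obtain ⟨q, hq'⟩ : ∃ q : ℝ, q = (Fintype.card F : ℝ) := ⟨_, rfl⟩
  rw [← hq'] at h3 hq ⊢
  have h4 : (S.card : ℝ) * (ε ^ 2 * A.card) * (A.card / q ^ 2) ≤ q ^ k * q ^ 2 * (A.card / q ^ 2) := by
    calc (S.card : ℝ) * (ε ^ 2 * A.card) * (A.card / q ^ 2) =
          (S.card : ℝ) * (ε * (A.card / q)) ^ 2 := by
          field_simp
      _ ≤ A.card * q ^ k := h3
      _ = _ := by field_simp
  exact le_of_mul_le_mul_right h4 (by positivity)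

end Pool.Agent.U795.GV
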