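import Pool.Agent.U795.GV.Core
import Pool.Agent.U137.GV.Sub

/-!
U795/GV (helper795): from systems of random equations to linear codes.
-/

set_option autoImplicit false
set_option linter.unusedSectionVars false

namespace Pool.Agent.U795.GV

open Finset

variable {F : Type} [Field F] [Fintype F] [DecidableEq F]

lemma norm_eq_miss {n k : ℕ} (m : Fin k → F) (c : Fin n → (Fin k → F) × F) (w : Fin n → F)
    (h : ∀ i, w i = m ⬝ᵥ (c i).1 - (c i).2) : hammingNorm w = miss m c := by
  unfold hammingNorm miss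
  rw [Finset.card_filter]
  refine Finset.sum_congr rfl (fun i _ => ?_)
  have h1 : Hit m (c i) ↔ w i = 0 := by
    rw [h i, sub_eq_zero]
  by_cases h2 : w i = 0
  · rw [if_neg (by simpa using h2), if_pos (h1.2 h2)]
  · rw [if_pos h2, if_neg (fun h3 => h2 (h1.1 h3))]

open Classical in
/-- the tuples which span a code with a coset without words of small weight -/
lemma tuples_le {n k z : ℕ} :
    (univ.filter (fun v : Fin (k + 1) → (Fin n → F) => LinearIndependent F v ∧
      (∃ x : Fin n → F, ∀ w ∈ Submodule.span F (Set.range v), w + x ≠ 0 →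
        z ≤ hammingNorm (w + x)))).card ≤
      (Ev n (univ : Finset (Fin (k + 1) → F)) (fun _ => 0) z).card +
      (Ev n (univ : Finset (Fin k → F)) (fun _ => 0) z).card := by
  obtain ⟨S1, hS1⟩ : ∃ S1 : Finset (Fin (k + 1) → (Fin n → F)), S1 = univ.filter
      (fun v : Fin (k + 1) → (Fin n → F) => ∃ x : Fin n → F,
        ∀ w ∈ Submodule.span F (Set.range v), z ≤ hammingNorm (w + x)) := ⟨_, rfl⟩
  obtain ⟨S2, hS2⟩ : ∃ S2 : Finset (Fin (k + 1) → (Fin n → F)), S2 = univ.filter
      (fun v : Fin (k + 1) → (Fin n → F) => LinearIndependent F v ∧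
        ∀ w ∈ Submodule.span F (Set.range v), w ≠ 0 → z ≤ hammingNorm w) := ⟨_, rfl⟩
  have hsub : (univ.filter (fun v : Fin (k + 1) → (Fin n → F) => LinearIndependent F v ∧
      (∃ x : Fin n → F, ∀ w ∈ Submodule.span F (Set.range v), w + x ≠ 0 →
        z ≤ hammingNorm (w + x)))) ⊆ S1 ∪ S2 := by
    intro v hv
    rw [Finset.mem_filter] at hv
    obtain ⟨-, hli, x, hx⟩ := hv
    rw [Finset.mem_union, hS1, hS2, Finset.mem_filter, Finset.mem_filter]
    by_cases hxs : x ∈ Submodule.span F (Set.range v)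
    · refine Or.inr ⟨Finset.mem_univ _, hli, fun w hw h0 => ?_⟩
      have h1 := hx (w - x) (Submodule.sub_mem _ hw hxs) (by rw [sub_add_cancel]; exact h0)
      rwa [sub_add_cancel] at h1
    · refine Or.inl ⟨Finset.mem_univ _, x, fun w hw => hx w hw ?_⟩
      intro h0
      apply hxs
      have : x = -w := (neg_eq_of_add_eq_zero_right h0).symm
      rw [this]
      exact Submodule.neg_mem _ hw
  have hmem : ∀ (v : Fin (k + 1) → (Fin n → F)) (m : Fin (k + 1) → F),
      ∑ j, m j • v j ∈ Submodule.span F (Set.range v) := fun v m =>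
    Submodule.sum_mem _ (fun j _ => Submodule.smul_mem _ _ (Submodule.subset_span ⟨j, rfl⟩))
  have h1 : S1.card ≤ (Ev n (univ : Finset (Fin (k + 1) → F)) (fun _ => 0) z).card := by
    have hx : ∀ v ∈ S1, ∃ x : Fin n → F,
        ∀ w ∈ Submodule.span F (Set.range v), z ≤ hammingNorm (w + x) := by
      intro v hv
      rw [hS1, Finset.mem_filter] at hv
      exact hv.2
    choose! x hx using hx
    refine Finset.card_le_card_of_injOn
      (fun v => fun i => ((fun j => v j i), - x v i)) ?_ ?_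
    · intro v hv
      rw [Finset.mem_coe] at hv ⊢
      unfold Ev
      rw [Finset.mem_filter]
      refine ⟨Finset.mem_univ _, fun m _ => ?_⟩
      rw [zero_add, ← norm_eq_miss m _ (∑ j, m j • v j + x v)]
      · exact hx v hv _ (hmem v m)
      · intro i
        simp [dotProduct]
    · intro v _ v' _ h
      funext j i
      have h2 := congrFun (congrArg Prod.fst (congrFun h i)) j
      exact h2
  have h2 : S2.card ≤ (Ev n (univ : Finset (Fin k → F)) (fun _ => 0) z).card := by
    refine Finset.card_le_card_of_injOn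
      (fun v => fun i => ((fun j => v (Fin.castSucc j) i), - v (Fin.last k) i)) ?_ ?_
    · intro v hv
      rw [Finset.mem_coe, hS2, Finset.mem_filter] at hv
      rw [Finset.mem_coe]
      unfold Ev
      rw [Finset.mem_filter]
      refine ⟨Finset.mem_univ _, fun m _ => ?_⟩
      have h3 : ∑ j : Fin (k + 1), (Fin.snoc m (1 : F) : Fin (k + 1) → F) j • v j =
          ∑ j, m j • v (Fin.castSucc j) + v (Fin.last k) := by
        rw [Fin.sum_univ_castSucc]
        simp
      rw [zero_add, ← norm_eq_miss m _ (∑ j, m j • v (Fin.castSucc j) + v (Fin.last k))]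
      · rw [← h3]
        apply hv.2.2 _ (hmem v _)
        intro h0
        have h4 := (Fintype.linearIndependent_iff.1 hv.2.1) _ h0 (Fin.last k)
        rw [Fin.snoc_last] at h4
        exact one_ne_zero h4
      · intro i
        simp [dotProduct]
    · intro v _ v' _ h
      funext j i
      rcases Fin.eq_castSucc_or_eq_last j with ⟨j', rfl⟩ | rfl
      · exact congrFun (congrArg Prod.fst (congrFun h i)) j'
      · exact neg_injective (congrArg Prod.snd (congrFun h i))
  calc _ ≤ (S1 ∪ S2).card := Finset.card_le_card hsub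
    _ ≤ S1.card + S2.card := Finset.card_union_le _ _
    _ ≤ _ := add_le_add h1 h2

lemma w_le {q ρ ε : ℝ} (hq : 2 ≤ q) (hε : 0 < ε) (hε1 : ε < 1) (hρ : ρ = (1 - ε) / q) {a b : ℕ}
    (hab : a ≤ b) : b.choose a * (q - 1) ^ a * ρ ^ b ≤ 1 := by
  have h1 : (b.choose a : ℝ) * (q - 1) ^ a ≤ q ^ b := by
    have h2 := add_pow (q - 1) 1 b
    rw [show q - 1 + 1 = q by ring] at h2
    rw [h2]
    refine le_trans (le_of_eq ?_) (Finset.single_le_sum
      (f := fun m => (q - 1) ^ m * 1 ^ (b - m) * (b.choose m : ℝ)) ?_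
      (Finset.mem_range.2 (by omega : a < b + 1)))
    · simp only [one_pow, mul_one]
      ring
    · intro i _
      have : 0 ≤ q - 1 := by linarith
      positivity
  have h3 : ρ ≤ 1 / q := by
    rw [hρ]
    exact div_le_div_of_nonneg_right (by linarith) (by linarith)
  have h4 : 0 ≤ ρ := by
    rw [hρ]
    exact div_nonneg (by linarith) (by linarith)
  calc b.choose a * (q - 1) ^ a * ρ ^ b ≤ q ^ b * (1 / q) ^ b :=
        mul_le_mul h1 (pow_le_pow_left₀ h4 h3 b) (by positivity) (by positivity)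
    _ = 1 := by
        rw [← mul_pow, mul_one_div_cancel (by linarith), one_pow]

lemma num_aux {q Q : ℝ} (hq : 2 ≤ q) (hQ : 0 ≤ Q) {n k D : ℕ} :
    2 ^ n * (q ^ (k + 1 + 1)) ^ n * Q ^ (D + 1) + 2 ^ n * (q ^ (k + 1)) ^ n * Q ^ (D + 1) ≤
      q ^ (n * (k + 1)) * (2 * (2 ^ n * q ^ n * Q ^ (D + 1))) := by
  have h10 : (q ^ (k + 1 + 1)) ^ n = q ^ (n * (k + 1)) * q ^ n := by
    rw [← pow_mul, ← pow_add]
    congr 1
    ring
  have h11 : (q ^ (k + 1)) ^ n ≤ q ^ (n * (k + 1)) * q ^ n := by
    rw [← pow_mul, mul_comm (k + 1) n]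
    exact le_mul_of_one_le_right (by positivity) (one_le_pow₀ (by linarith))
  have h12 : 2 ^ n * (q ^ (k + 1)) ^ n * Q ^ (D + 1) ≤
      2 ^ n * (q ^ (n * (k + 1)) * q ^ n) * Q ^ (D + 1) :=
    mul_le_mul_of_nonneg_right (mul_le_mul_of_nonneg_left h11 (by positivity)) (by positivity)
  rw [h10]
  calc _ ≤ 2 ^ n * (q ^ (n * (k + 1)) * q ^ n) * Q ^ (D + 1) +
        2 ^ n * (q ^ (n * (k + 1)) * q ^ n) * Q ^ (D + 1) := by linarith
    _ = _ := by ring

/-- **The count of codes.** -/
theorem codes_le {n k a b T D z : ℕ} (hn : n = b * T + D) (hT : 1 ≤ T) (hb : 0 < b) (hab : a ≤ b)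
    (hk : k + 1 ≤ n) (hz : a * T + D + 1 ≤ z) {ε ρ w Q : ℝ} (hε : 0 < ε) (hε1 : ε < 1)
    (hρ : ρ = (1 - ε) / Fintype.card F)
    (hw : w = b.choose a * (Fintype.card F - 1 : ℝ) ^ a * ρ ^ b)
    (hQ : b * Fintype.card F / (ε ^ 2 * (ρ ^ b * ((Fintype.card F : ℝ) ^ k * w ^ T))) ≤ Q) :
    (Pool.Agent.U137.GV.num F n (k + 1) (fun C => ∃ x : Fin n → F, ∀ w ∈ C, w + x ≠ 0 →
      z ≤ hammingNorm (w + x)) : ℝ) ≤
      8 * (2 ^ n * (Fintype.card F : ℝ) ^ n * Q ^ (D + 1)) *
        Pool.Agent.U137.GV.numAll F n (k + 1) := by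
  classical
  have hq2 : (2 : ℝ) ≤ Fintype.card F := by exact_mod_cast (Fintype.one_lt_card (α := F))
  have hq0 : (0 : ℝ) < Fintype.card F := by linarith
  have hρ0 : 0 < ρ := by rw [hρ]; exact div_pos (by linarith) hq0
  have hw0 : 0 < w := by
    rw [hw]
    have h1 : (0 : ℝ) < b.choose a := by exact_mod_cast Nat.choose_pos hab
    have h2 : (0 : ℝ) < Fintype.card F - 1 := by linarith
    positivity
  have hw1 : w ≤ 1 := by rw [hw]; exact w_le hq2 hε hε1 hρ hab
  have hQ0 : 0 ≤ Q := le_trans (by positivity) hQ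
  have hμ0 : 0 < (Fintype.card F : ℝ) ^ k * w ^ T := by positivity
  have e1 := main (F := F) (k := k + 1) hab hε hε1 hρ hw hw1 hμ0 hQ n T 0 D univ (fun _ => 0)
    ((Fintype.card F : ℝ) ^ (k + 1)) hT hb (by omega) (by positivity)
    (mul_le_mul_of_nonneg_right (pow_le_pow_right₀ (by linarith) (by omega)) (by positivity))
    (by
      intro i hi
      have hi0 : i = 0 := by omega
      subst hi0
      simp)
  have e2 := main (F := F) (k := k) hab hε hε1 hρ hw hw1 hμ0 hQ n T 0 D univ (fun _ => 0)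
    ((Fintype.card F : ℝ) ^ k) hT hb (by omega) (by positivity) le_rfl
    (by
      intro i hi
      have hi0 : i = 0 := by omega
      subst hi0
      simp)
  have h4 := tuples_le (F := F) (n := n) (k := k) (z := z)
  have h5 : ∀ (k' : ℕ), ((Ev n (univ : Finset (Fin k' → F)) (fun _ => 0) z).card : ℝ) ≤
      ((Ev n (univ : Finset (Fin k' → F)) (fun _ => 0) (a * T + D + 1)).card : ℝ) := by
    intro k'
    have : (Ev n (univ : Finset (Fin k' → F)) (fun _ => 0) z).card ≤
        (Ev n (univ : Finset (Fin k' → F)) (fun _ => 0) (a * T + D + 1)).card := by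
      apply Finset.card_le_card
      intro c hc
      unfold Ev at hc ⊢
      rw [Finset.mem_filter] at hc ⊢
      exact ⟨Finset.mem_univ _, fun m hm => hz.trans (hc.2 m hm)⟩
    exact_mod_cast this
  have h7 := h5 (k + 1)
  have h8 := h5 k
  have h6 : ((univ.filter (fun v : Fin (k + 1) → (Fin n → F) => LinearIndependent F v ∧
      (∃ x : Fin n → F, ∀ w ∈ Submodule.span F (Set.range v), w + x ≠ 0 →
        z ≤ hammingNorm (w + x)))).card : ℝ) ≤
      ((Ev n (univ : Finset (Fin (k + 1) → F)) (fun _ => 0) z).card : ℝ) +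
      ((Ev n (univ : Finset (Fin k → F)) (fun _ => 0) z).card : ℝ) := by
    refine le_trans ?_ (le_of_eq (Nat.cast_add _ _))
    exact Nat.cast_le.2 h4
  have hp : 0 ≤ 2 * (2 ^ n * (Fintype.card F : ℝ) ^ n * Q ^ (D + 1)) := by positivity
  have key := Pool.Agent.U137.GV.num_le (F := F) hk (fun C => ∃ x : Fin n → F, ∀ w ∈ C, w + x ≠ 0 →
      z ≤ hammingNorm (w + x)) hp
  have h13 : ((univ.filter (fun v : Fin (k + 1) → (Fin n → F) => LinearIndependent F v ∧
      (∃ x : Fin n → F, ∀ w ∈ Submodule.span F (Set.range v), w + x ≠ 0 →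
        z ≤ hammingNorm (w + x)))).card : ℝ) ≤ (Fintype.card F : ℝ) ^ (n * (k + 1)) *
        (2 * (2 ^ n * (Fintype.card F : ℝ) ^ n * Q ^ (D + 1))) := by
    refine le_trans h6 ?_
    refine le_trans (add_le_add h7 h8) ?_
    refine le_trans (add_le_add e1 e2) ?_
    exact num_aux hq2 hQ0
  have h14 := key (by convert h13)
  refine h14.trans (le_of_eq ?_)
  generalize (Pool.Agent.U137.GV.numAll F n (k + 1) : ℝ) = N
  ring

end Pool.Agent.U795.GV
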