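import Pool.Agent.U795.GV.Cheb

/-!
U795/GV (helper795): the columns of the generator matrix are exposed one by one, together with the
coordinates of the received word. As long as the new equation is good for the level sets of the
number of errors, it is used; `b` good equations form a round, after which only the messages with
exactly `a` errors in the round are kept. Bad equations are given up (one error each), and each of
them costs a factor `Q`.
-/

set_option autoImplicit false
set_option linter.unusedSectionVars false

namespace Pool.Agent.U795.GV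

open Finset

variable {F : Type} [Field F] [Fintype F] [DecidableEq F] {k : ℕ}

/-- the number of the equations which the message `m` violates -/
def miss {n : ℕ} (m : Fin k → F) (c : Fin n → (Fin k → F) × F) : ℕ :=
  ∑ i, if Hit m (c i) then 0 else 1

lemma miss_le {n : ℕ} (m : Fin k → F) (c : Fin n → (Fin k → F) × F) : miss m c ≤ n := by
  unfold miss
  calc ∑ i, (if Hit m (c i) then 0 else 1) ≤ ∑ _i : Fin n, 1 :=
        Finset.sum_le_sum (fun i _ => by split_ifs <;> omega)
    _ = n := by simp

/-- the systems of `n` equations for which all messages in `M` have at least `z` errors -/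
def Ev (n : ℕ) (M : Finset (Fin k → F)) (L : (Fin k → F) → ℕ) (z : ℕ) :
    Finset (Fin n → (Fin k → F) × F) :=
  univ.filter (fun c => ∀ m ∈ M, z ≤ L m + miss m c)

/-- the new error -/
def er (L : (Fin k → F) → ℕ) (c : (Fin k → F) × F) (m : Fin k → F) : ℕ :=
  L m + if Hit m c then 0 else 1

lemma Ev_succ (n : ℕ) (M : Finset (Fin k → F)) (L : (Fin k → F) → ℕ) (z : ℕ) :
    ((Ev (n + 1) M L z).card : ℝ) = ∑ c, ((Ev n M (er L c) z).card : ℝ) := by
  have h1 : ∀ (n : ℕ) (L : (Fin k → F) → ℕ), ((Ev n M L z).card : ℝ) =
      ∑ c : Fin n → (Fin k → F) × F, if (∀ m ∈ M, z ≤ L m + miss m c) then (1 : ℝ) else 0 := by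
    intro n L
    unfold Ev
    rw [Finset.sum_boole]
  rw [h1, Finset.sum_congr rfl (fun c _ => h1 n (er L c))]
  rw [← (Fin.consEquiv (fun _ : Fin (n + 1) => (Fin k → F) × F)).sum_comp, Fintype.sum_prod_type]
  refine Finset.sum_congr rfl (fun c _ => Finset.sum_congr rfl (fun c' _ => ?_))
  have h2 : ∀ m, L m + miss m (Fin.consEquiv (fun _ : Fin (n + 1) => (Fin k → F) × F) (c, c')) =
      er L c m + miss m c' := by
    intro m
    unfold miss er
    rw [Fin.sum_univ_succ]
    simp only [Fin.consEquiv_apply, Fin.cons_zero, Fin.cons_succ]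
    ring
  simp only [h2]

lemma Ev_card_le (n : ℕ) (M : Finset (Fin k → F)) (L : (Fin k → F) → ℕ) (z : ℕ) :
    ((Ev n M L z).card : ℝ) ≤ ((Fintype.card F : ℝ) ^ (k + 1)) ^ n := by
  have h1 : (Ev n M L z).card ≤ (univ : Finset (Fin n → (Fin k → F) × F)).card :=
    Finset.card_le_card (Finset.filter_subset _ _)
  rw [Finset.card_univ, Fintype.card_fun, Fintype.card_prod, Fintype.card_fun, Fintype.card_fin,
    Fintype.card_fin, ← pow_succ] at h1
  exact_mod_cast h1

/-- **The main count.** -/
theorem main {a b : ℕ} (hab : a ≤ b) {ε ρ w μ0 Q : ℝ} (hε : 0 < ε) (hε1 : ε < 1)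
    (hρ : ρ = (1 - ε) / Fintype.card F)
    (hw : w = b.choose a * (Fintype.card F - 1 : ℝ) ^ a * ρ ^ b) (hw1 : w ≤ 1) (hμ0 : 0 < μ0)
    (hQ : b * Fintype.card F / (ε ^ 2 * (ρ ^ b * μ0)) ≤ Q) :
    ∀ (n T j D : ℕ) (M : Finset (Fin k → F)) (L : (Fin k → F) → ℕ) (μ : ℝ), 1 ≤ T → j < b →
      n + j = b * T + D → 0 < μ → μ0 ≤ μ * w ^ T →
      (∀ i, i ≤ j → j.choose i * (Fintype.card F - 1 : ℝ) ^ i * ρ ^ j * μ ≤
        ((M.filter (fun m => L m = i)).card : ℝ)) →
      ((Ev n M L (a * T + D + 1)).card : ℝ) ≤
        2 ^ n * ((Fintype.card F : ℝ) ^ (k + 1)) ^ n * Q ^ (D + 1) := by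
  classical
  obtain ⟨q, hq⟩ : ∃ q : ℝ, q = (Fintype.card F : ℝ) := ⟨_, rfl⟩
  have hq2 : (2 : ℝ) ≤ q := by
    rw [hq]
    exact_mod_cast (Fintype.one_lt_card (α := F))
  rw [← hq] at hρ hw hQ ⊢
  have hq0 : 0 < q := by linarith
  have hρ0 : 0 < ρ := by rw [hρ]; exact div_pos (by linarith) hq0
  have hρ1 : ρ ≤ 1 := by
    rw [hρ, div_le_one hq0]
    linarith
  have hw0 : 0 ≤ w := by
    rw [hw]
    have : 0 ≤ q - 1 := by linarith
    positivity
  have hQ0 : 0 ≤ Q := le_trans (by positivity) hQ
  obtain ⟨U, hU⟩ : ∃ U : ℝ, U = q ^ (k + 1) := ⟨_, rfl⟩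
  have hU0 : 0 < U := by rw [hU]; positivity
  intro n
  induction n with
  | zero =>
    intro T j D M L μ hT hj hn hμ hμT hsz
    exfalso
    have : b * 1 ≤ b * T := Nat.mul_le_mul_left _ hT
    omega
  | succ n ih =>
    intro T j D M L μ hT hj hn hμ hμT hsz
    rw [← hU] at ih ⊢
    -- the bad equations
    obtain ⟨bad, hbad⟩ : ∃ bad : Finset ((Fin k → F) × F), bad = (range (j + 1)).biUnion
        (fun i => univ.filter (fun c : (Fin k → F) × F =>
          ε * ((M.filter (fun m => L m = i)).card / Fintype.card F) <
          |(N (M.filter (fun m => L m = i)) c : ℝ) -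
            (M.filter (fun m => L m = i)).card / Fintype.card F|)) := ⟨_, rfl⟩
    have hwT : w ^ T ≤ 1 := pow_le_one₀ hw0 hw1
    have hμμ : μ0 ≤ μ := hμT.trans (by
      calc μ * w ^ T ≤ μ * 1 := mul_le_mul_of_nonneg_left hwT hμ.le
        _ = μ := mul_one _)
    have hlev : ∀ i, i ≤ j → ρ ^ b * μ0 ≤ ((M.filter (fun m => L m = i)).card : ℝ) := by
      intro i hi
      refine le_trans ?_ (hsz i hi)
      have h1 : (1 : ℝ) ≤ j.choose i := by exact_mod_cast Nat.choose_pos hi
      have h2 : (1 : ℝ) ≤ (q - 1) ^ i := one_le_pow₀ (by linarith)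
      have h3 : ρ ^ b ≤ ρ ^ j := pow_le_pow_of_le_one hρ0.le hρ1 hj.le
      calc ρ ^ b * μ0 ≤ ρ ^ j * μ := mul_le_mul h3 hμμ hμ0.le (by positivity)
        _ = 1 * 1 * (ρ ^ j * μ) := by ring
        _ ≤ j.choose i * (q - 1) ^ i * (ρ ^ j * μ) :=
            mul_le_mul_of_nonneg_right (mul_le_mul h1 h2 (by norm_num) (by positivity))
              (by positivity)
        _ = _ := by ring
    have hbadc : (bad.card : ℝ) ≤ U * Q := by
      have h1 : (bad.card : ℝ) ≤ ∑ i ∈ range (j + 1), (q ^ k * q ^ 2 / (ε ^ 2 * (ρ ^ b * μ0))) := by
        have h2 : bad.card ≤ ∑ i ∈ range (j + 1), (univ.filter (fun c : (Fin k → F) × F =>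
          ε * ((M.filter (fun m => L m = i)).card / Fintype.card F) <
          |(N (M.filter (fun m => L m = i)) c : ℝ) -
            (M.filter (fun m => L m = i)).card / Fintype.card F|)).card := by
          rw [hbad]
          exact Finset.card_biUnion_le
        calc (bad.card : ℝ) ≤ ((∑ i ∈ range (j + 1), (univ.filter (fun c : (Fin k → F) × F =>
          ε * ((M.filter (fun m => L m = i)).card / Fintype.card F) <
          |(N (M.filter (fun m => L m = i)) c : ℝ) -
            (M.filter (fun m => L m = i)).card / Fintype.card F|)).card : ℕ) : ℝ) := by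
              exact_mod_cast h2
          _ ≤ _ := by
              push_cast
              refine Finset.sum_le_sum (fun i hi => ?_)
              rw [Finset.mem_range] at hi
              have h3 := hlev i (by omega)
              have h4 : 0 < ρ ^ b * μ0 := by positivity
              have h5 : (M.filter (fun m => L m = i)).Nonempty := by
                rw [← Finset.card_pos]
                have : (0 : ℝ) < ((M.filter (fun m => L m = i)).card : ℝ) := by linarith
                exact_mod_cast this
              refine (cheb _ h5 hε).trans ?_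
              rw [← hq]
              apply div_le_div_of_nonneg_left (by positivity) (by positivity)
              exact mul_le_mul_of_nonneg_left h3 (by positivity)
      rw [Finset.sum_const, Finset.card_range, nsmul_eq_mul] at h1
      have hjb : ((j + 1 : ℕ) : ℝ) ≤ b := by exact_mod_cast hj
      calc (bad.card : ℝ) ≤ ((j + 1 : ℕ) : ℝ) * (q ^ k * q ^ 2 / (ε ^ 2 * (ρ ^ b * μ0))) := h1
        _ ≤ b * (q ^ k * q ^ 2 / (ε ^ 2 * (ρ ^ b * μ0))) :=
            mul_le_mul_of_nonneg_right hjb (by positivity)
        _ = U * (b * q / (ε ^ 2 * (ρ ^ b * μ0))) := by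
            rw [hU]
            ring
        _ ≤ U * Q := mul_le_mul_of_nonneg_left hQ hU0.le
    -- the bad case
    have hB : ∀ c, ((Ev n M (er L c) (a * T + D + 1)).card : ℝ) ≤ 2 ^ n * U ^ n * Q ^ D := by
      intro c
      rcases Nat.eq_zero_or_pos D with hD | hD
      · subst hD
        have h1 := Ev_card_le n M (er L c) (a * T + 0 + 1)
        rw [← hq, ← hU] at h1
        refine h1.trans ?_
        rw [pow_zero, mul_one]
        exact le_mul_of_one_le_left (by positivity) (one_le_pow₀ (by norm_num))
      · obtain ⟨D', rfl⟩ : ∃ D', D = D' + 1 := ⟨D - 1, by omega⟩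
        refine le_trans ?_ (ih T j D' M L μ hT hj (by omega) hμ hμT hsz)
        have h1 : (Ev n M (er L c) (a * T + (D' + 1) + 1)).card ≤
            (Ev n M L (a * T + D' + 1)).card := by
          apply Finset.card_le_card
          intro c' hc'
          unfold Ev at hc' ⊢
          rw [Finset.mem_filter] at hc' ⊢
          refine ⟨Finset.mem_univ _, fun m hm => ?_⟩
          have h2 := hc'.2 m hm
          have h3 : er L c m ≤ L m + 1 := by
            unfold er
            split_ifs <;> omega
          omega
        exact_mod_cast h1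
    -- the good case
    have hG : ∀ c, c ∉ bad → ((Ev n M (er L c) (a * T + D + 1)).card : ℝ) ≤
        2 ^ n * U ^ n * Q ^ (D + 1) := by
      intro c hc
      -- both parts of all levels are large
      have h1 : ∀ i, i ≤ j → ρ * ((M.filter (fun m => L m = i)).card : ℝ) ≤
          ((M.filter (fun m => L m = i ∧ Hit m c)).card : ℝ) ∧
          ρ * (q - 1) * ((M.filter (fun m => L m = i)).card : ℝ) ≤
          ((M.filter (fun m => L m = i ∧ ¬ Hit m c)).card : ℝ) := by
        intro i hi
        obtain ⟨A, hA⟩ : ∃ A : Finset (Fin k → F), A = M.filter (fun m => L m = i) := ⟨_, rfl⟩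
        have h2 : |(N A c : ℝ) - A.card / q| ≤ ε * (A.card / q) := by
          by_contra h
          apply hc
          rw [hbad, Finset.mem_biUnion]
          refine ⟨i, Finset.mem_range.2 (by omega), ?_⟩
          rw [Finset.mem_filter]
          refine ⟨Finset.mem_univ _, ?_⟩
          rw [← hA, ← hq]
          exact not_le.1 h
        have h3 : (N A c : ℝ) = ((M.filter (fun m => L m = i ∧ Hit m c)).card : ℝ) := by
          unfold N
          rw [hA, Finset.filter_filter]
        have h4 : (A.card : ℝ) = ((M.filter (fun m => L m = i ∧ Hit m c)).card : ℝ) +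
            ((M.filter (fun m => L m = i ∧ ¬ Hit m c)).card : ℝ) := by
          rw [← Finset.filter_filter, ← Finset.filter_filter, ← hA]
          exact_mod_cast (Finset.card_filter_add_card_filter_not (s := A)
            (fun m => Hit m c)).symm
        rw [← hA]
        rw [abs_le] at h2
        have h5 : ρ * (A.card : ℝ) = (A.card / q) - ε * (A.card / q) := by
          rw [hρ]
          field_simp
        have h6 : ρ * (q - 1) * (A.card : ℝ) = (q - 1) * ((A.card / q) - ε * (A.card / q)) := by
          rw [← h5]
          ring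
        have h7 : (A.card : ℝ) = q * (A.card / q) := by
          rw [mul_div_cancel₀ _ hq0.ne']
        have h8 : 0 ≤ ε * ((A.card : ℝ) / q) :=
          mul_nonneg hε.le (div_nonneg (Nat.cast_nonneg _) hq0.le)
        constructor
        · rw [← h3, h5]
          linarith [h2.1]
        · have h9 : ((M.filter (fun m => L m = i ∧ ¬ Hit m c)).card : ℝ) =
              q * (A.card / q) - N A c := by
            rw [← h7, h3]
            linarith
          rw [h9, h6]
          nlinarith [h2.2]
      have h2 : ∀ i, i ≤ j + 1 → ((j + 1).choose i : ℝ) * (q - 1) ^ i * ρ ^ (j + 1) * μ ≤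
          ((M.filter (fun m => er L c m = i)).card : ℝ) := by
        intro i hi
        have hsplit : ((M.filter (fun m => L m = i ∧ Hit m c)).card : ℝ) +
            ((M.filter (fun m => L m + 1 = i ∧ ¬ Hit m c)).card : ℝ) ≤
            ((M.filter (fun m => er L c m = i)).card : ℝ) := by
          have h3 : (M.filter (fun m => L m = i ∧ Hit m c)).card +
            (M.filter (fun m => L m + 1 = i ∧ ¬ Hit m c)).card ≤
            (M.filter (fun m => er L c m = i)).card := by
            rw [← Finset.card_union_of_disjoint]
            · apply Finset.card_le_card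
              intro m hm
              rw [Finset.mem_union, Finset.mem_filter, Finset.mem_filter] at hm
              rw [Finset.mem_filter]
              unfold er
              rcases hm with hm | hm
              · exact ⟨hm.1, by rw [if_pos hm.2.2]; omega⟩
              · exact ⟨hm.1, by rw [if_neg hm.2.2]; omega⟩
            · rw [Finset.disjoint_left]
              intro m hm hm'
              rw [Finset.mem_filter] at hm hm'
              exact hm'.2.2 hm.2.2
          exact_mod_cast h3
        refine le_trans ?_ hsplit
        have p1 : ((j.choose i : ℕ) : ℝ) * (q - 1) ^ i * ρ ^ (j + 1) * μ ≤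
            ((M.filter (fun m => L m = i ∧ Hit m c)).card : ℝ) := by
          rcases Nat.lt_or_ge j i with h | h
          · rw [Nat.choose_eq_zero_of_lt h, Nat.cast_zero, zero_mul, zero_mul, zero_mul]
            exact Nat.cast_nonneg _
          · refine le_trans ?_ (h1 i h).1
            calc ((j.choose i : ℕ) : ℝ) * (q - 1) ^ i * ρ ^ (j + 1) * μ =
                  ρ * (((j.choose i : ℕ) : ℝ) * (q - 1) ^ i * ρ ^ j * μ) := by ring
              _ ≤ _ := mul_le_mul_of_nonneg_left (hsz i h) hρ0.le
        rcases Nat.eq_zero_or_pos i with h0 | h0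
        · subst h0
          have : (0 : ℝ) ≤ ((M.filter (fun m => L m + 1 = 0 ∧ ¬ Hit m c)).card : ℝ) :=
            Nat.cast_nonneg _
          rw [Nat.choose_zero_right] at p1 ⊢
          linarith
        · obtain ⟨i', rfl⟩ : ∃ i', i = i' + 1 := ⟨i - 1, by omega⟩
          have p2 : ((j.choose i' : ℕ) : ℝ) * (q - 1) ^ (i' + 1) * ρ ^ (j + 1) * μ ≤
              ((M.filter (fun m => L m + 1 = i' + 1 ∧ ¬ Hit m c)).card : ℝ) := by
            have h4 : (M.filter (fun m => L m + 1 = i' + 1 ∧ ¬ Hit m c)) =
                M.filter (fun m => L m = i' ∧ ¬ Hit m c) := by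
              apply Finset.filter_congr
              intro m _
              simp
            rw [h4]
            refine le_trans ?_ (h1 i' (by omega)).2
            calc ((j.choose i' : ℕ) : ℝ) * (q - 1) ^ (i' + 1) * ρ ^ (j + 1) * μ =
                  ρ * (q - 1) * (((j.choose i' : ℕ) : ℝ) * (q - 1) ^ i' * ρ ^ j * μ) := by ring
              _ ≤ _ := mul_le_mul_of_nonneg_left (hsz i' (by omega))
                  (mul_nonneg hρ0.le (by linarith))
          rw [Nat.choose_succ_succ, Nat.cast_add]
          calc ((j.choose i' : ℝ) + (j.choose (i' + 1) : ℝ)) * (q - 1) ^ (i' + 1) * ρ ^ (j + 1) * μ =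
                (j.choose (i' + 1) : ℝ) * (q - 1) ^ (i' + 1) * ρ ^ (j + 1) * μ +
                (j.choose i' : ℝ) * (q - 1) ^ (i' + 1) * ρ ^ (j + 1) * μ := by ring
            _ ≤ _ := add_le_add p1 p2
      rcases Nat.lt_or_ge (j + 1) b with hjb | hjb
      · exact ih T (j + 1) D M (er L c) μ hT hjb (by omega) hμ hμT h2
      · have hjb' : j + 1 = b := by omega
        -- the end of the round
        obtain ⟨M', hM'⟩ : ∃ M' : Finset (Fin k → F), M' = M.filter (fun m => er L c m = a) :=
          ⟨_, rfl⟩
        have h3 : μ * w ≤ (M'.card : ℝ) := by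
          have h4 := h2 a (by omega)
          rw [← hM', hjb'] at h4
          refine le_trans (le_of_eq ?_) h4
          rw [hw]
          ring
        have hsub : (Ev n M (er L c) (a * T + D + 1)).card ≤
            (Ev n M' (fun _ => 0) (a * (T - 1) + D + 1)).card := by
          apply Finset.card_le_card
          intro c' hc'
          unfold Ev at hc' ⊢
          rw [Finset.mem_filter] at hc' ⊢
          refine ⟨Finset.mem_univ _, fun m hm => ?_⟩
          rw [hM', Finset.mem_filter] at hm
          have h4 := hc'.2 m hm.1
          rw [hm.2] at h4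
          obtain ⟨T', rfl⟩ : ∃ T', T = T' + 1 := ⟨T - 1, by omega⟩
          rw [Nat.add_sub_cancel]
          have : a * (T' + 1) = a * T' + a := by ring
          omega
        obtain ⟨T', rfl⟩ : ∃ T', T = T' + 1 := ⟨T - 1, by omega⟩
        rw [Nat.add_sub_cancel] at hsub
        have hb0 : 0 < b := by omega
        have hwpos : 0 < w := by
          by_contra h
          have : w = 0 := le_antisymm (not_lt.1 h) hw0
          rw [this, zero_pow (by omega), mul_zero] at hμT
          linarith
        have hμw : 0 < μ * w := mul_pos hμ hwpos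
        rcases Nat.eq_zero_or_pos T' with hT' | hT'
        · subst hT'
          -- all rounds are done
          have hn' : n = D := by
            have : b * (0 + 1) = b := by ring
            omega
          have h4 : (Ev n M' (fun _ => 0) (a * 0 + D + 1)).card = 0 := by
            rw [Finset.card_eq_zero]
            rw [Finset.eq_empty_iff_forall_notMem]
            intro c' hc'
            have h5 : M'.Nonempty := by
              rw [← Finset.card_pos]
              have : (0 : ℝ) < (M'.card : ℝ) := by linarith
              exact_mod_cast this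
            obtain ⟨m, hm⟩ := h5
            unfold Ev at hc'
            rw [Finset.mem_filter] at hc'
            have h6 : a * 0 + D + 1 ≤ 0 + miss m c' := hc'.2 m hm
            have h7 := miss_le m c'
            omega
          have h5 : (Ev n M (er L c) (a * (0 + 1) + D + 1)).card = 0 := by omega
          rw [h5]
          push_cast
          positivity
        · refine le_trans (b := ((Ev n M' (fun _ => 0) (a * T' + D + 1)).card : ℝ))
            (by exact_mod_cast hsub) ?_
          refine ih T' 0 D M' (fun _ => 0) (μ * w) hT' hb0 ?_ hμw ?_ ?_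
          · have : b * (T' + 1) = b * T' + b := by ring
            omega
          · calc μ0 ≤ μ * w ^ (T' + 1) := hμT
              _ = μ * w * w ^ T' := by ring
          · intro i hi
            have hi0 : i = 0 := by omega
            subst hi0
            have h4 : M'.filter (fun _ => (0 : ℕ) = 0) = M' := by simp
            rw [h4]
            simpa using h3
    -- sum
    rw [Ev_succ]
    calc ∑ c, ((Ev n M (er L c) (a * T + D + 1)).card : ℝ) ≤
          ∑ c : (Fin k → F) × F, (2 ^ n * U ^ n * Q ^ (D + 1) +
            if c ∈ bad then 2 ^ n * U ^ n * Q ^ D else 0) := by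
          refine Finset.sum_le_sum (fun c _ => ?_)
          by_cases hc : c ∈ bad
          · rw [if_pos hc]
            have h1 := hB c
            have h2 : 0 ≤ 2 ^ n * U ^ n * Q ^ (D + 1) := by positivity
            linarith
          · rw [if_neg hc, add_zero]
            exact hG c hc
      _ = U * (2 ^ n * U ^ n * Q ^ (D + 1)) + bad.card * (2 ^ n * U ^ n * Q ^ D) := by
          rw [Finset.sum_add_distrib, Finset.sum_const, nsmul_eq_mul, Finset.card_univ,
            Fintype.card_prod, Fintype.card_fun, Fintype.card_fin, Finset.sum_ite_mem,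
            Finset.univ_inter, Finset.sum_const, nsmul_eq_mul]
          congr 1
          rw [hU, pow_succ q k, hq]
          push_cast
          ring
      _ ≤ U * (2 ^ n * U ^ n * Q ^ (D + 1)) + (U * Q) * (2 ^ n * U ^ n * Q ^ D) := by
          have : 0 ≤ 2 ^ n * U ^ n * Q ^ D := by positivity
          have := mul_le_mul_of_nonneg_right hbadc this
          linarith
      _ = 2 ^ (n + 1) * U ^ (n + 1) * Q ^ (D + 1) := by ring

end Pool.Agent.U795.GV
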