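import Pool.Agent.U795.GV.Codes
import Pool.Agent.U137.GV.Main

/-!
U795/GV (helper795): the explicit rate at which linear codes beyond the Gilbert-Varshamov bound
become rare.
-/

set_option autoImplicit false

namespace Pool.Agent.U795.GV

open Finset Filter
open Pool.Agent.U137.GV (EE EE_cont EE_le choose_low ev_ge num numAll)

/-- the lower bound for the weight of one block -/
lemma w_ge {q L M τ φ E0 ρ : ℝ} (hexpM : Real.exp M = q - 1) (hM0 : 0 ≤ M)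
    (hMl : M = Real.log (q - 1)) (hρ : ρ = Real.exp (-(τ + L)))
    (hE : E0 - τ ≤ EE q φ) {a b : ℕ} (ha : φ * b - 1 ≤ a)
    (hch : Real.exp ((Real.binEntropy φ - τ) * b) ≤ b.choose a) :
    Real.exp (b * (E0 - L - 3 * τ) - M) ≤ b.choose a * (q - 1) ^ a * ρ ^ b := by
  have h1 : (q - 1) ^ a = Real.exp (a * M) := by
    rw [Real.exp_nat_mul, hexpM]
  have h2 : ρ ^ b = Real.exp (-(b * (τ + L))) := by
    rw [hρ, ← Real.exp_nat_mul]
    congr 1
    ring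
  have h3 : Real.exp ((φ * b - 1) * M) ≤ (q - 1) ^ a := by
    rw [h1]
    exact Real.exp_le_exp.2 (mul_le_mul_of_nonneg_right ha hM0)
  have h4 : EE q φ = φ * M + Real.binEntropy φ := by
    unfold EE
    rw [hMl]
  have h5 : (b : ℝ) * (E0 - τ) ≤ b * EE q φ := mul_le_mul_of_nonneg_left hE (Nat.cast_nonneg _)
  rw [h4] at h5
  calc Real.exp (b * (E0 - L - 3 * τ) - M) ≤
      Real.exp ((Real.binEntropy φ - τ) * b) * Real.exp ((φ * b - 1) * M) *
        Real.exp (-(b * (τ + L))) := by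
        rw [← Real.exp_add, ← Real.exp_add]
        apply Real.exp_le_exp.2
        nlinarith
    _ ≤ b.choose a * (q - 1) ^ a * ρ ^ b := by
        rw [h2]
        exact mul_le_mul_of_nonneg_right (mul_le_mul hch h3 (Real.exp_pos _).le
          (Nat.cast_nonneg _)) (Real.exp_pos _).le

/-- the bound for `Q` -/
lemma Q_ge {q L M τ κ θ R E0 ε ρ w n : ℝ} (hL0 : 0 < L) (hexpL : Real.exp L = q)
    (hτ0 : 0 < τ) (hn : 1 ≤ n) (hθ1 : 0 < 1 - θ) (hθ : 0 < θ) (hE0 : E0 ≤ L)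
    (hκ : κ = R * L - (1 - θ) * (L - E0)) (hρ : ρ = Real.exp (-(τ + L))) (hε : 0 < ε)
    {b T k : ℕ} (hT : L + τ ≤ τ * T) (hbT : (b : ℝ) * T ≤ (1 - θ) * n)
    (hT1 : 1 ≤ T) (hw : Real.exp (b * (E0 - L - 3 * τ) - M) ≤ w)
    (hk : R * n ≤ k + 1)
    (h3 : n * (q / ε ^ 2 * Real.exp (L + T * M)) ≤ Real.exp (τ * n)) :
    b * q / (ε ^ 2 * (ρ ^ b * (q ^ k * w ^ T))) ≤ Real.exp (-((κ - 5 * τ) * n)) := by
  have hq0 : 0 < q := by rw [← hexpL]; exact Real.exp_pos _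
  have hw0 : 0 < w := lt_of_lt_of_le (Real.exp_pos _) hw
  have hρ0 : 0 < ρ := by rw [hρ]; exact Real.exp_pos _
  have hb0 : (0 : ℝ) ≤ b := Nat.cast_nonneg _
  have hT0 : (0 : ℝ) ≤ T := Nat.cast_nonneg _
  have hT1' : (1 : ℝ) ≤ T := by exact_mod_cast hT1
  have hbn : (b : ℝ) * T ≤ n := hbT.trans (by nlinarith)
  have hbn' : (b : ℝ) ≤ n := by nlinarith
  have e1 : ρ ^ b = Real.exp (-(b * (τ + L))) := by
    rw [hρ, ← Real.exp_nat_mul]
    congr 1
    ring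
  have e2 : Real.exp ((R * n - 1) * L) ≤ q ^ k := by
    rw [← hexpL, ← Real.exp_nat_mul]
    exact Real.exp_le_exp.2 (mul_le_mul_of_nonneg_right (by linarith) hL0.le)
  have e3 : Real.exp (T * (b * (E0 - L - 3 * τ) - M)) ≤ w ^ T := by
    rw [Real.exp_nat_mul]
    exact pow_le_pow_left₀ (Real.exp_pos _).le hw T
  have e4 : Real.exp ((κ - 4 * τ) * n - (L + T * M)) ≤ ρ ^ b * (q ^ k * w ^ T) := by
    calc Real.exp ((κ - 4 * τ) * n - (L + T * M)) ≤ Real.exp (-(b * (τ + L))) *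
        (Real.exp ((R * n - 1) * L) * Real.exp (T * (b * (E0 - L - 3 * τ) - M))) := by
          rw [← Real.exp_add, ← Real.exp_add]
          apply Real.exp_le_exp.2
          have f1 : (b : ℝ) * (τ + L) ≤ τ * n := by
            calc (b : ℝ) * (τ + L) ≤ b * (τ * T) := mul_le_mul_of_nonneg_left (by linarith) hb0
              _ = τ * (b * T) := by ring
              _ ≤ τ * n := mul_le_mul_of_nonneg_left hbn hτ0.le
          have f2 : (b : ℝ) * T * (L + 3 * τ - E0) ≤ (1 - θ) * n * (L + 3 * τ - E0) :=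
            mul_le_mul_of_nonneg_right hbT (by linarith)
          have f3 : (1 - θ) * n * (3 * τ) ≤ 3 * τ * n := by
            have : θ * n * (3 * τ) ≥ 0 := by positivity
            nlinarith
          rw [hκ]
          nlinarith
      _ ≤ _ := by
          rw [e1]
          exact mul_le_mul_of_nonneg_left (mul_le_mul e2 e3 (Real.exp_pos _).le (by positivity))
            (Real.exp_pos _).le
  rw [div_le_iff₀ (by positivity)]
  have e5 : Real.exp (τ * n) * Real.exp (-(L + T * M)) ≤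
      Real.exp (-((κ - 5 * τ) * n)) * (ρ ^ b * (q ^ k * w ^ T)) := by
    refine le_trans (le_of_eq ?_) (mul_le_mul_of_nonneg_left e4 (Real.exp_pos _).le)
    rw [← Real.exp_add, ← Real.exp_add]
    congr 1
    ring
  have e6 : n * (q / ε ^ 2) ≤ Real.exp (τ * n) * Real.exp (-(L + T * M)) := by
    have h4 := mul_le_mul_of_nonneg_right h3 (Real.exp_pos (-(L + T * M))).le
    refine le_trans (le_of_eq ?_) h4
    rw [mul_assoc, mul_assoc, ← Real.exp_add, add_neg_cancel, Real.exp_zero, mul_one]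
  have e7 : n * (q / ε ^ 2) * ε ^ 2 = n * q := by field_simp
  calc (b : ℝ) * q ≤ n * q := mul_le_mul_of_nonneg_right hbn' hq0.le
    _ = n * (q / ε ^ 2) * ε ^ 2 := e7.symm
    _ ≤ (Real.exp (-((κ - 5 * τ) * n)) * (ρ ^ b * (q ^ k * w ^ T))) * ε ^ 2 :=
        mul_le_mul_of_nonneg_right (e6.trans e5) (by positivity)
    _ = _ := by ring

/-- exponentials beat `n` -/
lemma ev_exp {τ A : ℝ} (hτ : 0 < τ) (hA : 0 < A) :
    ∀ᶠ n : ℕ in atTop, (n : ℝ) * A ≤ Real.exp (τ * n) := by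
  filter_upwards [ev_ge (Real.log (A * (2 / τ)) / (τ / 2))] with n hn
  rw [div_le_iff₀ (by positivity)] at hn
  have h1 : τ / 2 * n ≤ Real.exp (τ / 2 * n) := by
    have := Real.add_one_le_exp (τ / 2 * n)
    linarith
  have h2 : A * (2 / τ) ≤ Real.exp (τ / 2 * n) := by
    rw [← Real.log_le_iff_le_exp (by positivity)]
    linarith
  have h3 : Real.exp (τ * n) = Real.exp (τ / 2 * n) * Real.exp (τ / 2 * n) := by
    rw [← Real.exp_add]
    congr 1
    ring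
  rw [h3]
  calc (n : ℝ) * A = (τ / 2 * n) * (A * (2 / τ)) := by field_simp
    _ ≤ _ := mul_le_mul h1 h2 (by positivity) (Real.exp_pos _).le

/-- a numerical inequality -/
lemma haz_num {δ θ φ φ0 s a b T D n : ℝ} (hφ : φ = φ0 - s) (hφ0m : φ0 * (1 - θ) = δ - θ)
    (hφp : 0 < φ) (hφ1 : φ < 1) (hT0 : 0 < T) (h1 : a * T ≤ φ * (b * T)) (hD : n = b * T + D)
    (hb : (1 - θ) * n - T ≤ b * T) (g2 : T + 1 ≤ n * ((1 - θ) * s)) :
    a * T + D + 1 ≤ δ * n := by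
  have h3 : (1 - φ) * ((1 - θ) * n - T) ≤ (1 - φ) * (b * T) :=
    mul_le_mul_of_nonneg_left hb (by linarith)
  have h4 : (1 - φ) * T ≤ T := by nlinarith
  have h5 : (1 - φ) * ((1 - θ) * n) = (1 - δ) * n + n * ((1 - θ) * s) := by
    rw [hφ]
    linear_combination (-n) * hφ0m
  have h6 : (1 - φ) * ((1 - θ) * n - T) = (1 - φ) * ((1 - θ) * n) - (1 - φ) * T := by ring
  have h7 : (1 - φ) * (b * T) = b * T - φ * (b * T) := by ring
  have h8 : (1 - δ) * n = n - δ * n := by ring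
  linarith

/-- a numerical inequality -/
lemma fin_num {κ τ θ c L l2 l8 n D : ℝ} (hn1 : 1 ≤ n) (hτ0 : 0 < τ) (hκ : 0 ≤ κ - 5 * τ)
    (hθ1 : 0 ≤ 1 - θ) (hl8 : 0 ≤ l8) (g4 : l2 + L + l8 ≤ n * τ)
    (f6 : θ * κ = 6 * τ + c * L) (hD : θ * n ≤ D) :
    l8 + (n * l2 + n * L + -((κ - 5 * τ) * n * (D + 1))) ≤ -(c * L * n ^ 2) := by
  have hn0 : 0 < n := by linarith
  have f1 : n * l2 + n * L + l8 ≤ τ * n ^ 2 := by
    have e1 : l8 ≤ n * l8 := le_mul_of_one_le_left hl8 hn1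
    have e2 : n * (l2 + L + l8) ≤ n * (n * τ) := mul_le_mul_of_nonneg_left g4 hn0.le
    have e3 : n * (l2 + L + l8) = n * l2 + n * L + n * l8 := by ring
    have e4 : n * (n * τ) = τ * n ^ 2 := by ring
    linarith
  have f3 : (κ - 5 * τ) * n * (θ * n) ≤ (κ - 5 * τ) * n * (D + 1) :=
    mul_le_mul_of_nonneg_left (by linarith) (by positivity)
  have f4 : (κ - 5 * τ) * n * (θ * n) = (θ * κ) * n ^ 2 - 5 * τ * n ^ 2 +
      5 * τ * (1 - θ) * n ^ 2 := by ring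
  have f5 : 0 ≤ 5 * τ * (1 - θ) * n ^ 2 := by positivity
  rw [f6] at f4
  have f7 : (6 * τ + c * L) * n ^ 2 = 6 * (τ * n ^ 2) + c * L * n ^ 2 := by ring
  have f8 : 5 * τ * n ^ 2 = 5 * (τ * n ^ 2) := by ring
  linarith

/-- **The explicit rate.** -/
theorem rate {F : Type} [Field F] [Fintype F] [DecidableEq F] {δ θ R c : ℝ} (hθ : 0 < θ)
    (hθδ : θ < δ) (hδ : δ < 1) (hc0 : 0 ≤ c)
    (hc : c * Real.log (Fintype.card F) < θ * (R * Real.log (Fintype.card F) -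
      (1 - θ) * (Real.log (Fintype.card F) - EE (Fintype.card F) ((δ - θ) / (1 - θ))))) :
    ∀ᶠ n : ℕ in atTop, ∀ K : ℕ, K ≤ n → R * n ≤ K →
      (num F n K (fun C => ∃ x : Fin n → F, ∀ w ∈ C, w + x ≠ 0 →
        δ * n ≤ (hammingNorm (w + x) : ℝ)) : ℝ) ≤
        (Fintype.card F : ℝ) ^ (-(c * (n : ℝ) ^ 2)) * numAll F n K := by
  classical
  have hq := Pool.Agent.U137.GV.two_le_card (F := F)
  obtain ⟨q, hqq⟩ : ∃ q : ℝ, q = (Fintype.card F : ℝ) := ⟨_, rfl⟩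
  have hq2 : (2 : ℝ) ≤ q := by rw [hqq]; exact_mod_cast hq
  have hq0 : (0 : ℝ) < q := by linarith
  have hq1 : (1 : ℝ) ≤ q - 1 := by linarith
  obtain ⟨L, hL⟩ : ∃ L : ℝ, L = Real.log q := ⟨_, rfl⟩
  have hL0 : 0 < L := by rw [hL]; exact Real.log_pos (by linarith)
  have hexpL : Real.exp L = q := by rw [hL]; exact Real.exp_log hq0
  obtain ⟨M, hM⟩ : ∃ M : ℝ, M = Real.log (q - 1) := ⟨_, rfl⟩
  have hM0 : 0 ≤ M := by rw [hM]; exact Real.log_nonneg hq1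
  have hexpM : Real.exp M = q - 1 := by rw [hM]; exact Real.exp_log (by linarith)
  have hθ1 : 0 < 1 - θ := by linarith
  obtain ⟨φ0, hφ0⟩ : ∃ φ0 : ℝ, φ0 = (δ - θ) / (1 - θ) := ⟨_, rfl⟩
  have hφ0m : φ0 * (1 - θ) = δ - θ := by rw [hφ0]; field_simp
  have hφ0p : 0 < φ0 := by rw [hφ0]; exact div_pos (by linarith) hθ1
  have hφ01 : φ0 < 1 := by rw [hφ0, div_lt_one hθ1]; linarith
  rw [← hqq, ← hL, ← hφ0] at hc
  have hE0 : EE q φ0 ≤ L := by rw [hL]; exact EE_le hq2 hφ0p hφ01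
  obtain ⟨E0, hE0'⟩ : ∃ E0 : ℝ, E0 = EE q φ0 := ⟨_, rfl⟩
  rw [← hE0'] at hc hE0
  obtain ⟨κ, hκ⟩ : ∃ κ : ℝ, κ = R * L - (1 - θ) * (L - E0) := ⟨_, rfl⟩
  rw [← hκ] at hc
  have hcL : 0 ≤ c * L := by positivity
  have hκ0 : 0 < κ := by
    by_contra h
    push Not at h
    have : θ * κ ≤ 0 := mul_nonpos_of_nonneg_of_nonpos hθ.le h
    linarith
  have hθκ : θ * κ ≤ κ := by nlinarith
  obtain ⟨τ, hτ⟩ : ∃ τ : ℝ, τ = (θ * κ - c * L) / 6 := ⟨_, rfl⟩
  have hτ0 : 0 < τ := by rw [hτ]; linarith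
  have hR0 : 0 < R := by
    by_contra h
    push Not at h
    have h1 : R * L ≤ 0 := mul_nonpos_of_nonpos_of_nonneg h hL0.le
    have h2 : 0 ≤ (1 - θ) * (L - E0) := mul_nonneg hθ1.le (by linarith)
    linarith
  -- the smaller radius
  obtain ⟨r, hr, hball⟩ := Metric.eventually_nhds_iff.1
    (((EE_cont q).tendsto φ0).eventually (lt_mem_nhds (show EE q φ0 - τ < EE q φ0 by linarith)))
  obtain ⟨s, hs⟩ : ∃ s : ℝ, s = min (r / 2) (φ0 / 2) := ⟨_, rfl⟩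
  have hs0 : 0 < s := by rw [hs]; exact lt_min (by positivity) (by positivity)
  have hsr : s ≤ r / 2 := by rw [hs]; exact min_le_left _ _
  have hsφ : s ≤ φ0 / 2 := by rw [hs]; exact min_le_right _ _
  obtain ⟨φ, hφ⟩ : ∃ φ : ℝ, φ = φ0 - s := ⟨_, rfl⟩
  have hφp : 0 < φ := by rw [hφ]; linarith
  have hφ1 : φ < 1 := by rw [hφ]; linarith
  have hEφ : E0 - τ ≤ EE q φ := by
    rw [hE0']
    refine le_of_lt (hball ?_)
    rw [Real.dist_eq, hφ, show φ0 - s - φ0 = -s by ring, abs_neg, abs_of_pos hs0]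
    linarith
  -- the level
  obtain ⟨ε, hε⟩ : ∃ ε : ℝ, ε = 1 - Real.exp (-τ) := ⟨_, rfl⟩
  have hε0 : 0 < ε := by
    have : Real.exp (-τ) < 1 := by
      have h := Real.exp_lt_exp.2 (show -τ < 0 by linarith)
      rwa [Real.exp_zero] at h
    rw [hε]; linarith
  have hε1 : ε < 1 := by
    have := Real.exp_pos (-τ)
    rw [hε]; linarith
  obtain ⟨ρ, hρ⟩ : ∃ ρ : ℝ, ρ = Real.exp (-(τ + L)) := ⟨_, rfl⟩
  have hρ' : ρ = (1 - ε) / q := by
    rw [hρ, hε, ← hexpL, neg_add, Real.exp_add, Real.exp_neg L]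
    ring_nf
  -- the number of blocks
  obtain ⟨T, hT⟩ : ∃ T : ℕ, T = ⌈(L + τ) / τ⌉₊ := ⟨_, rfl⟩
  have hTτ : L + τ ≤ τ * T := by
    have h1 : (L + τ) / τ ≤ T := by rw [hT]; exact Nat.le_ceil _
    rw [div_le_iff₀ hτ0] at h1
    linarith
  have hT1 : 1 ≤ T := by
    rw [hT]
    exact Nat.one_le_iff_ne_zero.2 (by
      intro h0
      rw [Nat.ceil_eq_zero] at h0
      have : 0 < (L + τ) / τ := by positivity
      linarith)
  have hT1' : (1 : ℝ) ≤ T := by exact_mod_cast hT1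
  have hT0' : (0 : ℝ) < T := by linarith
  obtain ⟨η₁, hη₁, ev1⟩ := choose_low hφp hφ1 hτ0
  obtain ⟨b0, hb0⟩ := eventually_atTop.1 (ev1.and (ev_ge (1 / η₁)))
  have hA : 0 < q / ε ^ 2 * Real.exp (L + T * M) := by positivity
  filter_upwards [ev_ge (((b0 : ℝ) + 1) * T / (1 - θ)), ev_ge ((T + 1) / ((1 - θ) * s)),
    ev_exp hτ0 hA, ev_ge ((Real.log 2 + L + Real.log 8) / τ), eventually_ge_atTop 1] with
    n g1 g2 g3 g4 g5 K hKn hK
  have hn1 : (1 : ℝ) ≤ n := by exact_mod_cast g5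
  have hn0 : (0 : ℝ) < n := by linarith
  rw [div_le_iff₀ hθ1] at g1
  rw [div_le_iff₀ (by positivity)] at g2
  rw [div_le_iff₀ hτ0] at g4
  -- the parameters
  obtain ⟨b, hb⟩ : ∃ b : ℕ, b = ⌊(1 - θ) * n / T⌋₊ := ⟨_, rfl⟩
  have hb1 : (b : ℝ) ≤ (1 - θ) * n / T := by rw [hb]; exact Nat.floor_le (by positivity)
  have hb2 : (1 - θ) * n / T < b + 1 := by rw [hb]; exact Nat.lt_floor_add_one _
  have hbT : (b : ℝ) * T ≤ (1 - θ) * n := by rwa [le_div_iff₀ hT0'] at hb1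
  have hbT' : (1 - θ) * n < (b + 1) * T := by rwa [div_lt_iff₀ hT0'] at hb2
  have hbb : b0 < b := by
    have h1 : ((b0 : ℝ) + 1) * T < (b + 1) * T := by linarith
    have h2 : (b0 : ℝ) + 1 < b + 1 := lt_of_mul_lt_mul_right h1 hT0'.le
    have h3 : (b0 : ℝ) < b := by linarith
    exact_mod_cast h3
  have hbpos : 0 < b := by omega
  obtain ⟨ev2, hbη⟩ := hb0 b hbb.le
  rw [div_le_iff₀ hη₁] at hbη
  obtain ⟨a, ha⟩ : ∃ a : ℕ, a = ⌊φ * b⌋₊ := ⟨_, rfl⟩
  have hφb : 0 ≤ φ * b := by positivity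
  have ha1 : (a : ℝ) ≤ φ * b := by rw [ha]; exact Nat.floor_le hφb
  have ha2 : φ * b < a + 1 := by rw [ha]; exact Nat.lt_floor_add_one _
  have hbr : (0 : ℝ) ≤ b := Nat.cast_nonneg _
  have hab : a ≤ b := by
    have h1 : (a : ℝ) ≤ b := by nlinarith
    exact_mod_cast h1
  have hbTn : b * T ≤ n := by
    have h1 : (b : ℝ) * T ≤ n := by nlinarith
    exact_mod_cast h1
  obtain ⟨D, hD⟩ : ∃ D : ℕ, n = b * T + D := ⟨n - b * T, by omega⟩
  have hDr : (n : ℝ) = b * T + D := by exact_mod_cast hD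
  have hDθ : θ * n ≤ D := by linarith
  have hch := ev2 a (by
    rw [abs_le]
    constructor <;> linarith)
  obtain ⟨z, hz⟩ : ∃ z : ℕ, z = ⌈δ * n⌉₊ := ⟨_, rfl⟩
  have hz1 : δ * n ≤ z := by rw [hz]; exact Nat.le_ceil _
  have haz : a * T + D + 1 ≤ z := by
    have h1 : (a : ℝ) * T ≤ φ * (b * T) := by
      calc (a : ℝ) * T ≤ φ * b * T := mul_le_mul_of_nonneg_right ha1 hT0'.le
        _ = _ := by ring
    have h2 : (a : ℝ) * T + D + 1 ≤ δ * n :=
      haz_num hφ hφ0m hφp hφ1 hT0' h1 hDr (by linarith) g2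
    have h6 : ((a * T + D + 1 : ℕ) : ℝ) ≤ z := by
      push_cast
      linarith
    exact_mod_cast h6
  -- the dimension
  have hK1 : 1 ≤ K := by
    have h1 : 0 < R * n := by positivity
    have h2 : (0 : ℝ) < K := by linarith
    have h3 : 0 < K := by exact_mod_cast h2
    omega
  obtain ⟨k, rfl⟩ : ∃ k : ℕ, K = k + 1 := ⟨K - 1, by omega⟩
  obtain ⟨w, hw⟩ : ∃ w : ℝ, w = b.choose a * (q - 1) ^ a * ρ ^ b := ⟨_, rfl⟩
  have hwge : Real.exp (b * (E0 - L - 3 * τ) - M) ≤ w := by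
    rw [hw]
    exact w_ge hexpM hM0 hM hρ hEφ (by linarith) hch
  have hQ := Q_ge (k := k) hL0 hexpL hτ0 hn1 hθ1 hθ hE0 hκ hρ hε0 hTτ hbT hT1 hwge
    (by push_cast at hK; exact hK) g3
  have hρ2 : ρ = (1 - ε) / (Fintype.card F : ℝ) := by rw [← hqq]; exact hρ'
  have hw2 : w = b.choose a * ((Fintype.card F : ℝ) - 1) ^ a * ρ ^ b := by rw [← hqq]; exact hw
  have hQ2 : b * (Fintype.card F : ℝ) / (ε ^ 2 * (ρ ^ b * ((Fintype.card F : ℝ) ^ k * w ^ T))) ≤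
      Real.exp (-((κ - 5 * τ) * n)) := by rw [← hqq]; exact hQ
  have hmain := codes_le (F := F) (n := n) (k := k) (a := a) (b := b) (T := T) (D := D) (z := z)
    (ρ := ρ) (w := w) (Q := Real.exp (-((κ - 5 * τ) * n)))
    hD hT1 hbpos hab hKn haz hε0 hε1 hρ2 hw2 hQ2
  rw [← hqq] at hmain ⊢
  have hset : num F n (k + 1) (fun C => ∃ x : Fin n → F, ∀ w ∈ C, w + x ≠ 0 →
        δ * n ≤ (hammingNorm (w + x) : ℝ)) = num F n (k + 1) (fun C => ∃ x : Fin n → F,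
        ∀ w ∈ C, w + x ≠ 0 → z ≤ hammingNorm (w + x)) := by
    congr 1
    funext C
    simp only [hz, Nat.ceil_le]
  rw [hset]
  refine hmain.trans (mul_le_mul_of_nonneg_right ?_ (Nat.cast_nonneg _))
  have hQe : Real.exp (-((κ - 5 * τ) * n)) ^ (D + 1) =
      Real.exp (-((κ - 5 * τ) * n * (D + 1))) := by
    rw [← Real.exp_nat_mul]
    congr 1
    push_cast
    ring
  have h2e : (2 : ℝ) ^ n = Real.exp (n * Real.log 2) := by
    rw [Real.exp_nat_mul, Real.exp_log (by norm_num)]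
  have hqe : q ^ n = Real.exp (n * L) := by
    rw [Real.exp_nat_mul, hexpL]
  have h8e : (8 : ℝ) = Real.exp (Real.log 8) := (Real.exp_log (by norm_num)).symm
  have hre : q ^ (-(c * (n : ℝ) ^ 2)) = Real.exp (-(c * L * (n : ℝ) ^ 2)) := by
    rw [Real.rpow_def_of_pos hq0, ← hL]
    congr 1
    ring
  rw [hre, hQe, h2e, hqe]
  have hlog8 : 0 ≤ Real.log 8 := Real.log_nonneg (by norm_num)
  have hfin : Real.log 8 + (n * Real.log 2 + n * L + -((κ - 5 * τ) * n * (D + 1))) ≤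
      -(c * L * (n : ℝ) ^ 2) :=
    fin_num (κ := κ) (τ := τ) (θ := θ) (c := c) (L := L) (l2 := Real.log 2) (n := n) (D := D)
      hn1 hτ0 (by linarith) (by linarith) hlog8 g4 (by rw [hτ]; ring) hDθ
  calc 8 * (Real.exp (n * Real.log 2) * Real.exp (n * L) *
        Real.exp (-((κ - 5 * τ) * n * (D + 1)))) =
        Real.exp (Real.log 8) * (Real.exp (n * Real.log 2) * Real.exp (n * L) *
        Real.exp (-((κ - 5 * τ) * n * (D + 1)))) := by rw [← h8e]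
    _ = Real.exp (Real.log 8 + (n * Real.log 2 + n * L + -((κ - 5 * τ) * n * (D + 1)))) := by
        rw [← Real.exp_add, ← Real.exp_add, ← Real.exp_add]
    _ ≤ _ := Real.exp_le_exp.2 hfin

end Pool.Agent.U795.GV
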